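import Pool.Agent.Helper821.HB.Basis
import Pool.Agent.Helper821.HB.Embed2
import Pool.Agent.Helper821.HB.Exist

/-!
# The Hardy space `𝓗¹` of Dirichlet series has no unconditional basis

Sketch of the proof.

1. Suppose `(eₙ)` is an unconditional basis of `𝓗¹` with coordinates `fₙ`. Then
   `∑ |fₙ(x)| |Ψ(eₙ)| ≤ K ‖x‖ ‖Ψ‖` for all `x` and all functionals `Ψ`
   (all rearrangements converge, hence summable; closed graph theorem).
2. With `k` disjoint pairs of primes `(pⱼ, qⱼ)`, the Dirichlet monomials `∏ pⱼ^{Iⱼ} qⱼ^{2-Iⱼ}`,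
   `I ∈ {0,1,2}^k`, span a copy of the `k`-fold tensor power of the space `P₂` of
   polynomials of degree at most two with the `L¹(𝕋)` norm, and products of
   functionals given by bounded functions on `𝕋` extend to `𝓗¹` with the product of the bounds
   (Kronecker-Weyl theorem). Taking `k → ∞` removes the constant: for finite families,
   if `∑ cᵢ |a·tᵢ| |b·ψᵢ| ≤ ∑ dⱼ |a·t'ⱼ| |b·ψ'ⱼ|` for all `a, b ∈ ℂ³`, where `ψ'ⱼ` is given by a
   function bounded by `Dⱼ`, then `∑ cᵢ |ψᵢ·tᵢ| ≤ ∑ dⱼ ‖t'ⱼ‖₁ Dⱼ`.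
3. By Hahn-Banach and Riesz-Markov there is a measure `M` with
   `|ψ·t| ≤ ∫ |a·t| |b·ψ| dM ≤ ‖t‖₁ D` whenever `ψ` is given by a function bounded by `D`.
4. Such a measure does not exist: testing with `c/2 + z + c̄ z²/2`, with small perturbations of the
   middle coordinate functional and with `1 + s z` one finds that the measure would give an
   isometric factorization, forces `a` to be a multiple of `(ζ, 1, ζ̄)`, and then a second Fourier
   coefficient must vanish and must not vanish.
-/

set_option autoImplicit false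

open HB

universe u

namespace Pool.Agent.Results.MP_18d5a6_an.NoUncondBasis

/-- The Banach space `𝓗¹` exists, and no sequence in `𝓗¹` is an unconditional basis of `𝓗¹`. -/
theorem result :
    (∃ (E : Type) (_ : NormedAddCommGroup E) (_ : NormedSpace ℂ E) (ι : (ℕ+ →₀ ℂ) →ₗ[ℂ] E),
      IsHardyOne E ι) ∧
    ∀ (E : Type u) [NormedAddCommGroup E] [NormedSpace ℂ E] (ι : (ℕ+ →₀ ℂ) →ₗ[ℂ] E),
      IsHardyOne E ι → ¬ ∃ e : ℕ → E, IsUnconditionalBasis e := by
  refine ⟨⟨UniformSpace.Completion DP, inferInstance, inferInstance, emb, exists_model⟩, ?_⟩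
  rintro E _ _ ι h ⟨e, he⟩
  have := h.complete
  obtain ⟨f, K, hK0, hexp, hK⟩ := exists_system e he
  exact no_unconditional_basis h e f K hK0 hexp hK

end Pool.Agent.Results.MP_18d5a6_an.NoUncondBasis
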